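import Pool.Agent.W648.UN.Defs

/-!
# Landsberg unicorn (MP_9f67e3_gt): the list of statements (Props), analytic part

All of these are `def ... : Prop`; each one is a sub-task.  A sub-task proves
`theorem th : S_XXX` from Mathlib, `Defs` and the indicated earlier Props as hypotheses.
-/

set_option autoImplicit false

open MeasureTheory Set Filter Topology
open scoped ContDiff

noncomputable section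

namespace Pool.Agent.W648.UN

/-! ## Part 1 : Banach algebra part -/

/-- elementary facts on `D` -/
def S_D : Prop :=
  (∀ b ∈ Om, ∀ x ∈ Ico (0 : ℝ) 1, D b x ≠ 0 ∧ D b x ^ 2 = 1 - (x : ℂ) ^ 2 + b ∧
    1 - x ≤ ‖D b x‖ ^ 2 ∧ ‖b‖ ≤ ‖D b x‖ ^ 2 ∧ (9 / 10) * ‖D b x‖ ≤ (D b x).re) ∧
  (∀ b ∈ Om, ∀ x ∈ Ico (0 : ℝ) 1, ∀ s ∈ Icc x 1, ‖D b s‖ ≤ (2 : ℝ) ^ (1 / 4 : ℝ) * ‖D b x‖) ∧
  ContinuousOn (fun z : ℂ × ℝ => D z.1 z.2) (Om ×ˢ Ico (0 : ℝ) 1) ∧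
  (∀ x ∈ Ico (0 : ℝ) 1, ∀ b ∈ Om, HasDerivAt (fun b => D b x) ((1 / 2) * (D b x)⁻¹) b) ∧
  (∀ b : ℝ, 0 ≤ b → ∀ x ∈ Icc (0 : ℝ) 1, D (b : ℂ) x = ((Real.sqrt (1 - x ^ 2 + b) : ℝ) : ℂ))

/-- existence of solutions -/
def S_EX : Prop :=
  ∀ (A : Type) [NormedCommRing A] [NormedAlgebra ℂ A] [CompleteSpace A] [NormOneClass A]
    (H : ℝ → A) (b : ℂ), NB H (1 / 20) → b ∈ Om → ∃ p q E : ℝ → A, Sol H b p q E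

/-- uniqueness of solutions -/
def S_UN : Prop :=
  ∀ (A : Type) [NormedCommRing A] [NormedAlgebra ℂ A] [CompleteSpace A] [NormOneClass A]
    (H : ℝ → A) (b : ℂ) (p q E p' q' E' : ℝ → A), NB H (1 / 20) → b ∈ Om →
    Sol H b p q E → Sol H b p' q' E' →
    ∀ x ∈ Ico (0 : ℝ) 1, p x = p' x ∧ q x = q' x ∧ E x = E' x

/-- `Ups`, `Tau` are given by any solution -/
def S_UPS : Prop :=
  ∀ (A : Type) [NormedCommRing A] [NormedAlgebra ℂ A] [CompleteSpace A] [NormOneClass A]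
    (H : ℝ → A) (b : ℂ) (p q E : ℝ → A), NB H (1 / 20) → b ∈ Om →
    Sol H b p q E → Ups H b = upsOf b q E ∧ Tau H b = tauOf b q

/-- `Ups`, `Tau` depend only on `H` on `(0,1)` -/
def S_CONGR : Prop :=
  ∀ (A : Type) [NormedCommRing A] [NormedAlgebra ℂ A] [CompleteSpace A] [NormOneClass A]
    (H K : ℝ → A) (b : ℂ), NB H (1 / 20) → b ∈ Om → (∀ x ∈ Ioo (0 : ℝ) 1, H x = K x) →
    Ups H b = Ups K b ∧ Tau H b = Tau K b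

/-- boundedness -/
def S_BD : Prop :=
  ∀ (A : Type) [NormedCommRing A] [NormedAlgebra ℂ A] [CompleteSpace A] [NormOneClass A]
    (H : ℝ → A) (b : ℂ), NB H (1 / 20) → b ∈ Om → ‖Ups H b‖ ≤ 8 ∧ ‖Tau H b‖ ≤ 8

/-- Hölder continuity at `b = 0` -/
def S_HB : Prop :=
  ∃ C : ℝ, 0 < C ∧
  ∀ (A : Type) [NormedCommRing A] [NormedAlgebra ℂ A] [CompleteSpace A] [NormOneClass A]
    (H : ℝ → A) (b : ℂ), NB H (1 / 20) → b ∈ Om →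
    ‖Ups H b - Ups H 0‖ ≤ C * ‖b‖ ^ (1 / 4 : ℝ) ∧ ‖Tau H b - Tau H 0‖ ≤ C * ‖b‖ ^ (1 / 4 : ℝ)

/-- holomorphic dependence on parameters -/
def S_HOL : Prop :=
  ∀ (A : Type) [NormedCommRing A] [NormedAlgebra ℂ A] [CompleteSpace A] [NormOneClass A]
    (U : Set ℂ) (H : ℂ → ℝ → A) (h : ℝ → ℝ) (b : ℂ → ℂ), IsOpen U →
    (∀ z ∈ U, b z ∈ Om) → DifferentiableOn ℂ b U →
    (∀ z ∈ U, AEStronglyMeasurable (H z) (volume.restrict (Ioo (0 : ℝ) 1))) →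
    (∀ s ∈ Ioo (0 : ℝ) 1, DifferentiableOn ℂ (fun z => H z s) U) →
    (∀ z ∈ U, ∀ s ∈ Ioo (0 : ℝ) 1, ‖H z s‖ ≤ h s) →
    IntegrableOn (fun s : ℝ => h s * (1 - s) ^ (-(3 / 4) : ℝ)) (Ioo (0 : ℝ) 1) →
    (∫ s in Ioo (0 : ℝ) 1, h s * (1 - s) ^ (-(3 / 4) : ℝ)) ≤ 1 / 20 →
    DifferentiableOn ℂ (fun z => Ups (H z) (b z)) U ∧
    DifferentiableOn ℂ (fun z => Tau (H z) (b z)) U

/-- functoriality -/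
def S_FUN : Prop :=
  ∀ (A : Type) [NormedCommRing A] [NormedAlgebra ℂ A] [CompleteSpace A] [NormOneClass A]
    (B : Type) [NormedCommRing B] [NormedAlgebra ℂ B] [CompleteSpace B] [NormOneClass B]
    (φ : A →ₐ[ℂ] B), (∀ a, ‖φ a‖ ≤ ‖a‖) → ∀ (H : ℝ → A) (b : ℂ), NB H (1 / 20) → b ∈ Om →
    NB (fun x => φ (H x)) (1 / 20) ∧ φ (Ups H b) = Ups (fun x => φ (H x)) b ∧
    φ (Tau H b) = Tau (fun x => φ (H x)) b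

/-- complex conjugation -/
def S_CONJ : Prop :=
  ∀ (H : ℝ → ℂ) (b : ℂ), NB H (1 / 20) → b ∈ Om →
    Ups (fun x => (starRingEnd ℂ) (H x)) ((starRingEnd ℂ) b) = (starRingEnd ℂ) (Ups H b) ∧
    Tau (fun x => (starRingEnd ℂ) (H x)) ((starRingEnd ℂ) b) = (starRingEnd ℂ) (Tau H b)

/-- `b`-derivative of the one-sided time -/
def S_DER : Prop :=
  ∀ (H : ℝ → ℂ), ContinuousOn H (Ioo (0 : ℝ) 1) → (∃ C : ℝ, ∀ x ∈ Ioo (0 : ℝ) 1, ‖H x‖ ≤ C) →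
    NB H (1 / 20) → ∀ b : ℝ, 0 < b →
    HasDerivAt (fun b : ℝ => Tau H (b : ℂ))
      ((1 / 2) * Ups H (b : ℂ) - ((1 / (2 * Real.sqrt b) : ℝ) : ℂ)) b

/-- the constant profile -/
def S_CONST : Prop :=
  ∀ κ : ℝ, |κ| ≤ 1 / 100 → Ups (fun _ : ℝ => (κ : ℂ)) 0 = (κ : ℂ)

/-- Lipschitz bounds -/
def S_LIP : Prop :=
  ∃ C : ℝ, 0 < C ∧
  ∀ (A : Type) [NormedCommRing A] [NormedAlgebra ℂ A] [CompleteSpace A] [NormOneClass A]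
    (H K : ℝ → A) (η : ℝ) (b : ℂ), NB H (1 / 40) → NB K (1 / 40) →
    NB (fun x => H x - K x) η → b ∈ Om →
    ‖Ups H b - Ups K b‖ ≤ C * η ∧ ‖Tau H b - Tau K b‖ ≤ C * η ∧
    ‖(Ups H b - Ups H 0) - (Ups K b - Ups K 0)‖ ≤ C * ‖b‖ ^ (1 / 4 : ℝ) * η

/-- properties of `GV` -/
def S_GV : Prop :=
  ∃ C : ℝ, 0 < C ∧
  ∀ (A : Type) [NormedCommRing A] [NormedAlgebra ℂ A] [CompleteSpace A] [NormOneClass A]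
    (H K : ℝ → A) (η : ℝ), NB H (1 / 40) → NB K (1 / 40) →
    NB (fun x => H x - K x) η →
    DifferentiableOn ℂ (GV H) Om0 ∧
    (∀ y ∈ Om0, ‖GV H y - GV K y‖ ≤ C * η ∧
      ‖(GV H y - ((Real.pi / 4 : ℝ) : ℂ) • lam H 0) - (GV K y - ((Real.pi / 4 : ℝ) : ℂ) • lam K 0)‖
        ≤ C * ‖y‖ ^ (1 / 4 : ℝ) * η)

/-- properties of `VV` and its second derivative -/
def S_VPP : Prop :=
  ∃ C : ℝ, 0 < C ∧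
  ∀ (A : Type) [NormedCommRing A] [NormedAlgebra ℂ A] [CompleteSpace A] [NormOneClass A]
    (H : ℝ → A), NB H (1 / 40) →
    (∀ u : ℝ, 0 < u → HasDerivAt (VV H) (deriv (VV H) u) u ∧
      HasDerivAt (deriv (VV H)) (VPP H u) u) ∧
    ContinuousOn (VPP H) (Ioi 0) ∧
    Tendsto (VV H) (𝓝[>] 0) (𝓝 0) ∧
    Tendsto (deriv (VV H)) (𝓝[>] 0) (𝓝 ((Real.pi : ℂ) • lam H 0)) ∧
    (∀ u : ℝ, 0 < u → ‖VV H u‖ ≤ C * Real.exp (5 * u)) ∧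
    ∀ (K : ℝ → A) (η : ℝ), NB K (1 / 40) → NB (fun x => H x - K x) η → ∀ u : ℝ, 0 < u →
      ‖VPP H u - VPP K u‖ ≤ C * u ^ (-(3 / 4) : ℝ) * Real.exp (5 * u) * η

/-- functoriality and congruence for `lam`, `VV`, `VPP`, `TT` -/
def S_FUNV : Prop :=
  (∀ (A : Type) [NormedCommRing A] [NormedAlgebra ℂ A] [CompleteSpace A] [NormOneClass A]
    (B : Type) [NormedCommRing B] [NormedAlgebra ℂ B] [CompleteSpace B] [NormOneClass B]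
    (φ : A →ₐ[ℂ] B), (∀ a, ‖φ a‖ ≤ ‖a‖) → ∀ (H : ℝ → A) (K : ℝ → B), NB H (1 / 40) →
    (∀ x ∈ Ioo (0 : ℝ) 1, φ (H x) = K x) →
    NB K (1 / 40) ∧ (∀ b ∈ Om, φ (lam H b) = lam K b) ∧ φ (TT H) = TT K ∧
    ∀ u : ℝ, 0 < u → φ (VV H u) = VV K u ∧ φ (VPP H u) = VPP K u) ∧
  (∀ (H : ℝ → ℂ), NB H (1 / 40) → (∀ x ∈ Ioo (0 : ℝ) 1, (H x).im = 0) →
    (∀ b : ℝ, 0 ≤ b → (lam H (b : ℂ)).im = 0) ∧ (TT H).im = 0 ∧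
    ∀ u : ℝ, 0 < u → (VV H u).im = 0 ∧ (VPP H u).im = 0) ∧
  (∀ (A : Type) [NormedCommRing A] [NormedAlgebra ℂ A] [CompleteSpace A] [NormOneClass A]
    (u : ℝ), VPP (fun _ : ℝ => (0 : A)) u = 0 ∧ lam (fun _ : ℝ => (0 : A)) 0 = 0)

/-- the fixed point theorem -/
def S_FIX : Prop :=
  ∃ ℓ ε : ℝ, 0 < ℓ ∧ ℓ ≤ 1 ∧ 0 < ε ∧ ε ≤ 1 ∧
  ∀ (X : SA) (κ : ℝ), 0 < κ → κ ≤ 1 / 1000 → ∀ H1 : ℝ → X.A, NB H1 (ε * κ) →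
    ∀ e : X.A, ‖e‖ ≤ ε * κ ^ 2 → ∀ Z : Set X.A, IsClosed Z → 0 ∈ Z →
    (∀ m ∈ Z, ‖m‖ ≤ κ / 10 → KK X κ ℓ H1 e m ∈ Z) →
    ∃ m ∈ Z, ‖m‖ ≤ κ / 10 ∧ QT X κ ℓ H1 m = QT X κ ℓ H1 0 + e

/-! ## Part 2 : the algebras of smooth functions -/

/-- construction of the algebras with weights `w` -/
def S_SA1 : Prop :=
  ∀ w : ℕ → ℝ, w 0 = 1 → (∀ k, 0 < w k) → (∀ j k, w (j + k) ≤ w j * w k) →
  ∃ X : SA,
    (∀ a : X.A, ∃ B : ℕ → ℝ, (∀ k t, ‖iteratedDeriv k (fun t => X.ev t a) t‖ ≤ B k) ∧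
      HasSum (fun k => w k / (k.factorial : ℝ) * B k) ‖a‖) ∧
    (∀ (f : ℝ → ℂ) (B : ℕ → ℝ), ContDiff ℝ ∞ f → (∀ k t, ‖iteratedDeriv k f t‖ ≤ B k) →
      Summable (fun k => w k / (k.factorial : ℝ) * B k) →
      ∃ a : X.A, (∀ t, X.ev t a = f t) ∧ ‖a‖ ≤ ∑' k, w k / (k.factorial : ℝ) * B k)

/-- the pair of algebras -/
def S_SA : Prop :=
  ∀ (n : ℕ) (f : Fin n → ℝ → ℂ),
    (∀ i, ContDiff ℝ ∞ (f i) ∧ ∀ k : ℕ, ∃ C : ℝ, ∀ t : ℝ, ‖iteratedDeriv k (f i) t‖ ≤ C) →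
    ∃ (X Y : SA) (ι : X.A →ₐ[ℂ] Y.A) (Δ : X.A →L[ℂ] Y.A),
      (∀ a, ‖ι a‖ ≤ ‖a‖) ∧ (∀ t a, Y.ev t (ι a) = X.ev t a) ∧
      (∀ t a, Y.ev t (Δ a) = iteratedDeriv 2 (fun t => X.ev t a) t) ∧
      ∀ i, ∃ a : X.A, ∀ t, X.ev t a = f i t

/-! ## Part 3 : functions on the line -/

/-- admissible real functions of `t = log v` -/
def okh (h : ℝ → ℝ) : Prop :=
  Continuous h ∧ (∀ t ≤ 0, h t = 0) ∧ ∀ t, |h t| ≤ 1 / 200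

/-- continuity properties along the line -/
def S_CTS : Prop :=
  ∀ h : ℝ → ℝ, okh h →
    (∀ t, NB (HH h t) (1 / 50)) ∧
    Continuous (fun t => TT (HH h t)) ∧
    ContinuousOn (fun z : ℝ × ℝ => lam (HH h z.1) ((z.2 : ℝ) : ℂ)) (univ ×ˢ Ici (0 : ℝ)) ∧
    ContinuousOn (fun z : ℝ × ℝ => Ups (HH h z.1) ((z.2 : ℝ) : ℂ)) (univ ×ˢ Ici (0 : ℝ)) ∧
    ContinuousOn (fun z : ℝ × ℝ => Tau (HH h z.1) ((z.2 : ℝ) : ℂ)) (univ ×ˢ Ici (0 : ℝ)) ∧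
    ContinuousOn (fun z : ℝ × ℝ => VPP (HH h z.1) z.2) (univ ×ˢ Ioi (0 : ℝ))

/-- derivative (from the right) of the one-sided truncated time
`s ↦ Tau (H_s; e^{2(t-s)} - 1) + arctan √(e^{2(t-s)}-1)` -/
def S_TR1 : Prop :=
  ∀ h : ℝ → ℝ, Continuous h → (∀ t ≤ 0, h t = 0) → (∀ t, |h t| ≤ 1 / 200) →
    ∀ s t : ℝ, s < t →
    HasDerivWithinAt (fun s => Tau (HH h s) ((Real.exp (2 * (t - s)) - 1 : ℝ) : ℂ) +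
        ((Real.arctan (Real.sqrt (Real.exp (2 * (t - s)) - 1)) : ℝ) : ℂ))
      ((h s : ℂ) * (-1 + ((Real.sqrt (Real.exp (2 * (t - s)) - 1) : ℝ) : ℂ) *
        Ups (HH h s) ((Real.exp (2 * (t - s)) - 1 : ℝ) : ℂ))) (Ici s) s

/-- the causal formula for the half period -/
def S_TR : Prop :=
  ∀ h : ℝ → ℝ, okh h → ∀ t : ℝ, 0 ≤ t →
    TT (HH h t) = (Real.pi : ℂ) + ∫ s in (0 : ℝ)..t,
      ((h s * Real.sqrt (Real.exp (2 * (t - s)) - 1) : ℝ) : ℂ) *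
        lam (HH h s) ((Real.exp (2 * (t - s)) - 1 : ℝ) : ℂ)

/-- Abel kernel -/
def S_AK : Prop :=
  IntegrableOn ak (Ioi 0) ∧ (∫ η in Ioi (0 : ℝ), ak η) = 2 ∧ (∀ η > 0, 0 ≤ ak η)

/-- Abel composed formula -/
def S_JV : Prop :=
  ∀ h : ℝ → ℝ, okh h → ∀ t : ℝ, 0 ≤ t →
    JJ (fun r => TT (HH h r) - (Real.pi : ℂ)) t =
      ∫ r in (0 : ℝ)..t, ((h r : ℝ) : ℂ) * VV (HH h r) (t - r)

/-- second derivative form -/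
def S_JQ : Prop :=
  ∀ h : ℝ → ℝ, okh h → Continuous (QQ h) ∧ (∀ s ≤ 0, QQ h s = 0) ∧ ∀ t : ℝ, 0 ≤ t →
    (∫ r in (0 : ℝ)..t, ((h r : ℝ) : ℂ) * VV (HH h r) (t - r)) =
      ∫ s in (0 : ℝ)..t, ((t - s : ℝ) : ℂ) * QQ h s

/-- Abel injectivity -/
def S_ABEL : Prop :=
  ∀ g : ℝ → ℂ, Continuous g → (∀ t ≤ 0, g t = 0) → ∀ t1 : ℝ, (∀ t < t1, JJ g t = 0) →
    ∀ t < t1, g t = 0

/-- `JJ` of a smooth function -/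
def S_JD : Prop :=
  ∀ d : ℝ → ℂ, ContDiff ℝ 2 d → (∀ t ≤ 0, d t = 0) →
    Continuous (JJ (iteratedDeriv 2 d)) ∧ (∀ t ≤ 0, JJ (iteratedDeriv 2 d) t = 0) ∧
    ∀ t : ℝ, 0 ≤ t → JJ d t = ∫ s in (0 : ℝ)..t, ((t - s : ℝ) : ℂ) * JJ (iteratedDeriv 2 d) s

/-- consequence: comparison of two profiles -/
def S_CMP : Prop :=
  ∀ (h h0 : ℝ → ℝ) (d : ℝ → ℂ) (t1 : ℝ), okh h → okh h0 → ContDiff ℝ 2 d →
    (∀ t ≤ 0, d t = 0) →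
    (∀ s < t1, QQ h s = QQ h0 s + JJ (iteratedDeriv 2 d) s) →
    ∀ t < t1, TT (HH h t) = TT (HH h0 t) + d t

/-- invariance of the closed set of the fixed point problem -/
def S_INV : Prop :=
  ∀ (X : SA) (κ ℓ t0 : ℝ) (H1 : ℝ → X.A) (e m : X.A), 0 < κ → κ ≤ 1 / 1000 → 0 < ℓ → ℓ ≤ 1 →
    NB H1 κ → (∀ x ∈ Ioo (0 : ℝ) 1, ∀ t, (X.ev t (H1 x)).im = 0) →
    (∀ t, (X.ev t e).im = 0) → (∀ t ≤ t0, X.ev t e = 0) →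
    ‖m‖ ≤ κ / 10 → (∀ t, (X.ev t m).im = 0) → (∀ t ≤ t0, X.ev t m = 0) →
    (∀ t, (X.ev t (KK X κ ℓ H1 e m)).im = 0) ∧ (∀ t ≤ t0, X.ev t (KK X κ ℓ H1 e m) = 0)

/-- the relation between `QQ` and `QT` -/
def S_QQ : Prop :=
  ∀ (X : SA) (κ ℓ t0 : ℝ) (H1 : ℝ → X.A) (m : X.A) (h0 : ℝ → ℝ),
    0 < κ → κ ≤ 1 / 1000 → 0 < ℓ → ℓ ≤ 1 → 3 ≤ t0 →
    NB H1 κ → okh h0 → (∀ t, 1 ≤ t → h0 t = κ) → (∀ t, |h0 t| ≤ κ) →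
    (∀ x ∈ Ioo (0 : ℝ) 1, ∀ t, t0 - 1 ≤ t → X.ev t (H1 x) = ((h0 (t + Real.log x) - κ : ℝ) : ℂ)) →
    ‖m‖ ≤ κ / 10 → (∀ t, (X.ev t m).im = 0) → (∀ t ≤ t0, X.ev t m = 0) →
    okh (fun t => h0 t + (X.ev t m).re) ∧
    (∀ s < t0, QQ (fun t => h0 t + (X.ev t m).re) s = QQ h0 s) ∧
    ∀ s, t0 ≤ s → s < t0 + ℓ →
      QQ (fun t => h0 t + (X.ev t m).re) s - QQ h0 s = X.ev s (QT X κ ℓ H1 m - QT X κ ℓ H1 0)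

/-- result of the analytic part: a profile with constant half period on an interval -/
def S_SOLVE : Prop :=
  ∃ (h : ℝ → ℝ) (t1 t2 : ℝ) (τ : ℂ), ContDiff ℝ ∞ h ∧ (∀ t ≤ 0, h t = 0) ∧
    (∀ t, |h t| ≤ 1 / 200) ∧ h 1 ≠ 0 ∧ 1 ≤ t1 ∧ t1 < t2 ∧
    ∀ t ∈ Ioo t1 t2, TT (HH h t) = τ

end Pool.Agent.W648.UN
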