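import Mathlib

/-!
# Landsberg unicorn (MP_9f67e3_gt): analytic part, definitions

`A` is a complex commutative Banach algebra, `b` a complex number in the sector `Om`.
`D b x = (1 - x^2 + b)^(1/2)`.
For a (small) function `H : (0,1) → A` we consider the solutions `p, q, E` of
`p^2 = 1 + 2 D^{-2} ∫_x^1 D H p`, `p q = 1`, `E = 1 + ∫_x^1 D^{-1} H q E`.
-/

set_option autoImplicit false

open MeasureTheory Set Filter Topology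
open scoped ContDiff

noncomputable section

namespace Pool.Agent.W648.UN

/-- closed sector (contains 0) -/
def Om : Set ℂ := {b | |b.im| ≤ b.re}

/-- open sector -/
def Om0 : Set ℂ := {b | |b.im| < b.re}

/-- `D b x = (1 - x^2 + b)^{1/2}` -/
def D (b : ℂ) (x : ℝ) : ℂ := (1 - (x : ℂ) ^ 2 + b) ^ (1 / 2 : ℂ)

/-- `NB H η` : the function `H` on `(0,1)` satisfies `∫_0^1 ‖H s‖ (1-s)^{-3/4} ds ≤ η`. -/
def NB {A : Type} [NormedCommRing A] (H : ℝ → A) (η : ℝ) : Prop :=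
  AEStronglyMeasurable H (volume.restrict (Ioo (0 : ℝ) 1)) ∧
  IntegrableOn (fun s : ℝ => ‖H s‖ * (1 - s) ^ (-(3 / 4) : ℝ)) (Ioo (0 : ℝ) 1) ∧
  ∫ s in Ioo (0 : ℝ) 1, ‖H s‖ * (1 - s) ^ (-(3 / 4) : ℝ) ≤ η

/-- The basic system. -/
structure Sol {A : Type} [NormedCommRing A] [NormedAlgebra ℂ A]
    (H : ℝ → A) (b : ℂ) (p q E : ℝ → A) : Prop where
  cp : ContinuousOn p (Ico (0 : ℝ) 1)
  cq : ContinuousOn q (Ico (0 : ℝ) 1)
  cE : ContinuousOn E (Ico (0 : ℝ) 1)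
  bp : ∀ x ∈ Ico (0 : ℝ) 1, ‖p x - 1‖ ≤ 1 / 4
  bE : ∀ x ∈ Ico (0 : ℝ) 1, ‖E x - 1‖ ≤ 1 / 4
  pq : ∀ x ∈ Ico (0 : ℝ) 1, p x * q x = 1
  ep : ∀ x ∈ Ico (0 : ℝ) 1,
    p x ^ 2 = 1 + (2 * (D b x)⁻¹ ^ 2) • ∫ s in x..1, D b s • (H s * p s)
  eE : ∀ x ∈ Ico (0 : ℝ) 1,
    E x = 1 + ∫ s in x..1, (D b s)⁻¹ • (H s * q s * E s)

/-- `Υ = D(0)^{-1} E(0) q(0) - ∫_0^1 (1-x) D^{-3} E q^3 dx` -/
def upsOf {A : Type} [NormedCommRing A] [NormedAlgebra ℂ A] (b : ℂ) (q E : ℝ → A) : A :=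
  (D b 0)⁻¹ • (E 0 * q 0) -
    ∫ x in (0 : ℝ)..1, ((1 - (x : ℂ)) * (D b x)⁻¹ ^ 3) • (E x * q x ^ 3)

/-- one-sided time `∫_0^1 dx / (D p)` -/
def tauOf {A : Type} [NormedCommRing A] [NormedAlgebra ℂ A] (b : ℂ) (q : ℝ → A) : A :=
  ∫ x in (0 : ℝ)..1, (D b x)⁻¹ • q x

open Classical in
/-- `Υ(H;b)` (0 if there is no solution) -/
def Ups {A : Type} [NormedCommRing A] [NormedAlgebra ℂ A] (H : ℝ → A) (b : ℂ) : A :=
  if h : ∃ s : (ℝ → A) × (ℝ → A) × (ℝ → A), Sol H b s.1 s.2.1 s.2.2 then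
    upsOf b (Classical.choose h).2.1 (Classical.choose h).2.2 else 0

open Classical in
/-- `Tau(H;b)` (0 if there is no solution) -/
def Tau {A : Type} [NormedCommRing A] [NormedAlgebra ℂ A] (H : ℝ → A) (b : ℂ) : A :=
  if h : ∃ s : (ℝ → A) × (ℝ → A) × (ℝ → A), Sol H b s.1 s.2.1 s.2.2 then
    tauOf b (Classical.choose h).2.1 else 0

/-- `lam(H;b) = Υ(H;b) - Υ(-H;b)` -/
def lam {A : Type} [NormedCommRing A] [NormedAlgebra ℂ A] (H : ℝ → A) (b : ℂ) : A :=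
  Ups H b - Ups (fun s => - H s) b

/-- the half period of the orbit as a functional of the profile -/
def TT {A : Type} [NormedCommRing A] [NormedAlgebra ℂ A] (H : ℝ → A) : A :=
  Tau H 0 + Tau (fun s => - H s) 0

/-- `GV H y = ∫_0^{π/2} sin^2 f * lam(H; y sin^2 f) df` -/
def GV {A : Type} [NormedCommRing A] [NormedAlgebra ℂ A] (H : ℝ → A) (y : ℂ) : A :=
  ∫ f in (0 : ℝ)..(Real.pi / 2), ((Real.sin f ^ 2 : ℝ) : ℂ) • lam H (y * ((Real.sin f ^ 2 : ℝ) : ℂ))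

/-- the Abel composed kernel `V(H;u)` -/
def VV {A : Type} [NormedCommRing A] [NormedAlgebra ℂ A] (H : ℝ → A) (u : ℝ) : A :=
  (((2 * (Real.exp (2 * u) - 1) * Real.exp (-u) : ℝ)) : ℂ) •
    GV H ((Real.exp (2 * u) - 1 : ℝ) : ℂ)

/-- second derivative of `VV H` -/
def VPP {A : Type} [NormedCommRing A] [NormedAlgebra ℂ A] (H : ℝ → A) (u : ℝ) : A :=
  deriv (deriv (VV H)) u

/-- profile functions of a real function `h` of the variable `t = log v`: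
`HH h t x = h (t + log x)` -/
def HH (h : ℝ → ℝ) (t : ℝ) (x : ℝ) : ℂ := ((h (t + Real.log x) : ℝ) : ℂ)

/-- Abel kernel `a(η) = 2 e^{-2η} / sqrt(1 - e^{-2η})` -/
def ak (η : ℝ) : ℝ := 2 * Real.exp (-2 * η) / Real.sqrt (1 - Real.exp (-2 * η))

/-- Abel transform `(JJ g)(t) = ∫_0^∞ a(η) g(t-η) dη` -/
def JJ (g : ℝ → ℂ) (t : ℝ) : ℂ := ∫ η in Ioi (0 : ℝ), (ak η : ℂ) * g (t - η)

/-- `QQ h s = π h(s) lam(H_s;0) + ∫_0^∞ h(s-u) V''(H_{s-u};u) du` -/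
def QQ (h : ℝ → ℝ) (s : ℝ) : ℂ :=
  (Real.pi : ℂ) * ((h s : ℝ) : ℂ) * lam (HH h s) 0 +
    ∫ u in Ioi (0 : ℝ), ((h (s - u) : ℝ) : ℂ) * VPP (HH h (s - u)) u

/-- Package: an algebra of smooth functions on the line with translations. -/
structure SA where
  A : Type
  [i1 : NormedCommRing A]
  [i2 : NormedAlgebra ℂ A]
  [i3 : CompleteSpace A]
  [i4 : NormOneClass A]
  ev : ℝ → A →ₐ[ℂ] ℂ
  S : ℝ → A →ₐ[ℂ] A
  ev_le : ∀ t a, ‖ev t a‖ ≤ ‖a‖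
  S_le : ∀ u a, ‖S u a‖ ≤ ‖a‖
  ev_S : ∀ t u a, ev t (S u a) = ev (t - u) a
  S_cont : ∀ a, Continuous fun u => S u a
  ext : ∀ a b, (∀ t, ev t a = ev t b) → a = b
  smooth : ∀ a, ContDiff ℝ ∞ fun t => ev t a

attribute [instance] SA.i1 SA.i2 SA.i3 SA.i4

/-- the profile of the fixed point problem -/
def Hm (X : SA) (κ ℓ : ℝ) (H1 : ℝ → X.A) (m : X.A) (x : ℝ) : X.A :=
  (κ : ℂ) • (1 : X.A) + H1 x + (if Real.exp (-ℓ) ≤ x then X.S (-Real.log x) m else 0)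

/-- the operator of the fixed point problem -/
def QT (X : SA) (κ ℓ : ℝ) (H1 : ℝ → X.A) (m : X.A) : X.A :=
  (Real.pi : ℂ) • (((κ : ℂ) • (1 : X.A) + m) * lam (Hm X κ ℓ H1 m) 0) +
    ∫ u in (0 : ℝ)..ℓ, X.S u (((κ : ℂ) • (1 : X.A) + m) * VPP (Hm X κ ℓ H1 m) u)

/-- the map whose fixed point is wanted -/
def KK (X : SA) (κ ℓ : ℝ) (H1 : ℝ → X.A) (e : X.A) (m : X.A) : X.A :=
  ((1 / (2 * Real.pi * κ) : ℝ) : ℂ) •
    (e - (QT X κ ℓ H1 m - QT X κ ℓ H1 0 - ((2 * Real.pi * κ : ℝ) : ℂ) • m))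

end Pool.Agent.W648.UN
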