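import Pool.Agent.W648.UN.Stm

/-!
# Landsberg unicorn (MP_9f67e3_gt): ODE part and geometric part, statements
-/

set_option autoImplicit false

open MeasureTheory Set Filter Topology
open scoped ContDiff

noncomputable section

namespace Pool.Agent.W648.UN

/-! ## Part 4 : the ODE `u' = v`, `v' = -u - M v` -/

/-- the even function `M` with `M' v = h (log v)` for `v > 0` -/
def MM (h : ℝ → ℝ) (v : ℝ) : ℝ := ∫ s in (0 : ℝ)..|v|, h (Real.log s)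

def S_MM : Prop :=
  ∀ h : ℝ → ℝ, ContDiff ℝ ∞ h → (∀ t ≤ 0, h t = 0) → (∀ t, |h t| ≤ 1 / 200) →
    ContDiff ℝ ∞ (MM h) ∧ (∀ v, MM h (-v) = MM h v) ∧
    (∀ v, 0 < v → HasDerivAt (MM h) (h (Real.log v)) v) ∧ ∀ v, |deriv (MM h) v| ≤ 1 / 200

/-- smooth family of solutions starting at the tops -/
def S_FLOW : Prop :=
  ∀ M : ℝ → ℝ, ContDiff ℝ ∞ M → (∀ v, |deriv M v| ≤ 1 / 200) →
    ∃ u v : ℝ → ℝ → ℝ, ContDiff ℝ ∞ (fun z : ℝ × ℝ => u z.1 z.2) ∧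
      ContDiff ℝ ∞ (fun z : ℝ × ℝ => v z.1 z.2) ∧
      (∀ R t, HasDerivAt (u R) (v R t) t) ∧ (∀ R t, HasDerivAt (v R) (-u R t - M (v R t)) t) ∧
      (∀ R, u R 0 = - M R) ∧ (∀ R, v R 0 = R)

/-- one branch of an orbit -/
def S_ARC : Prop :=
  ∀ H : ℝ → ℝ, ContinuousOn H (Ioo 0 1) → (∀ x ∈ Ioo (0 : ℝ) 1, |H x| ≤ 1 / 200) →
    ∃ N : ℝ → ℝ, ContinuousOn N (Icc 0 1) ∧ N 1 = 0 ∧ (∀ x ∈ Ico (0 : ℝ) 1, 0 < N x) ∧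
      (∀ x ∈ Ioo (0 : ℝ) 1, HasDerivAt N ((-x - H x * N x) / N x) x) ∧
      IntervalIntegrable (fun x => (N x)⁻¹) volume 0 1 ∧
      Tau (fun x => ((H x : ℝ) : ℂ)) 0 = ((∫ x in (0 : ℝ)..1, (N x)⁻¹ : ℝ) : ℂ)

/-- the orbits are periodic with period `2 TT` -/
def S_ORB : Prop :=
  ∀ h : ℝ → ℝ, ContDiff ℝ ∞ h → (∀ t ≤ 0, h t = 0) → (∀ t, |h t| ≤ 1 / 200) →
    ∀ (t : ℝ) (u v : ℝ → ℝ), (∀ s, HasDerivAt u (v s) s) →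
      (∀ s, HasDerivAt v (-u s - MM h (v s)) s) →
      u 0 = - MM h (Real.exp t) → v 0 = Real.exp t →
      0 < (TT (HH h t)).re ∧
      (∀ s, u (s + 2 * (TT (HH h t)).re) = u s) ∧ (∀ s, v (s + 2 * (TT (HH h t)).re) = v s) ∧
      ∃ c, 0 < c ∧ c < 2 * (TT (HH h t)).re ∧ v c < 0 ∧ - u c - MM h (v c) = 0 ∧
        (∀ s, 0 < s → s < 2 * (TT (HH h t)).re → - u s - MM h (v s) = 0 → s = c)

/-! ## Part 5 : geometry -/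

/-- `a · y` -/
def dot (a y : Fin 2 → ℝ) : ℝ := a 0 * y 0 + a 1 * y 1

/-- `A(y,y)` -/
def quad (A : Fin 2 → Fin 2 → ℝ) (y : Fin 2 → ℝ) : ℝ :=
  A 0 0 * y 0 * y 0 + A 0 1 * y 0 * y 1 + A 1 0 * y 1 * y 0 + A 1 1 * y 1 * y 1

/-- determinant -/
def det2 (p q : Fin 2 → ℝ) : ℝ := p 0 * q 1 - p 1 * q 0

/-- the vector `G` with `p · G = a`, `q · G = b` -/
def sol2 (p q : Fin 2 → ℝ) (a b : ℝ) : Fin 2 → ℝ :=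
  ![(a * q 1 - b * p 1) / det2 p q, (b * p 0 - a * q 0) / det2 p q]

/-- zero counting -/
def S_STURM : Prop :=
  ∀ (p q : ℝ → Fin 2 → ℝ) (m : ℝ → ℝ) (T c : ℝ), 0 < c → c < T →
    (∀ θ i, HasDerivAt (fun θ => p θ i) (q θ i) θ) →
    (∀ θ i, HasDerivAt (fun θ => q θ i) (- p θ i - m θ * q θ i) θ) →
    (∀ θ i, p (θ + T) i = p θ i) → (∀ θ i, q (θ + T) i = q θ i) →
    (∀ θ, det2 (p θ) (q θ) < 0) →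
    q 0 1 = 0 → q c 1 = 0 → 0 < p 0 1 → p c 1 < 0 →
    (∀ θ, 0 < θ → θ < T → q θ 1 = 0 → θ = c) →
    ∀ y : Fin 2 → ℝ, y ≠ 0 → (∃ θ, dot (q θ) y = 0 ∧ 0 < dot (p θ) y) ∧
      ∀ θ θ', dot (q θ) y = 0 → 0 < dot (p θ) y → dot (q θ') y = 0 → 0 < dot (p θ') y →
        ∃ k : ℤ, θ' = θ + k * T

/-- geometric data -/
structure GDat (U : Set (Fin 2 → ℝ)) (T : ℝ) (p q : (Fin 2 → ℝ) → ℝ → Fin 2 → ℝ)
    (A B : (Fin 2 → ℝ) → ℝ → Fin 2 → Fin 2 → ℝ) (m1 m2 : (Fin 2 → ℝ) → ℝ → ℝ) : Prop where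
  oU : IsOpen U
  sp : ContDiffOn ℝ ∞ (fun z : (Fin 2 → ℝ) × ℝ => p z.1 z.2) (U ×ˢ univ)
  sq : ContDiffOn ℝ ∞ (fun z : (Fin 2 → ℝ) × ℝ => q z.1 z.2) (U ×ˢ univ)
  sA : ContDiffOn ℝ ∞ (fun z : (Fin 2 → ℝ) × ℝ => A z.1 z.2) (U ×ˢ univ)
  sB : ContDiffOn ℝ ∞ (fun z : (Fin 2 → ℝ) × ℝ => B z.1 z.2) (U ×ˢ univ)
  dpt : ∀ x ∈ U, ∀ θ i, HasDerivAt (fun θ => p x θ i) (q x θ i) θ
  dqt : ∀ x ∈ U, ∀ θ i, HasDerivAt (fun θ => q x θ i) (- p x θ i - m1 x θ * q x θ i) θ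
  dAt : ∀ x ∈ U, ∀ θ i j, HasDerivAt (fun θ => A x θ i j) (B x θ i j) θ
  dBt : ∀ x ∈ U, ∀ θ i j, HasDerivAt (fun θ => B x θ i j)
    (- A x θ i j - m1 x θ * B x θ i j - m2 x θ * q x θ i * q x θ j) θ
  dpx : ∀ x ∈ U, ∀ θ i j, fderiv ℝ (fun z => p z θ i) x (Pi.single j (1 : ℝ) : Fin 2 → ℝ) = A x θ i j
  dqx : ∀ x ∈ U, ∀ θ i j, fderiv ℝ (fun z => q z θ i) x (Pi.single j (1 : ℝ) : Fin 2 → ℝ) = B x θ i j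
  syA : ∀ x ∈ U, ∀ θ i j, A x θ i j = A x θ j i
  syB : ∀ x ∈ U, ∀ θ i j, B x θ i j = B x θ j i
  pp : ∀ x ∈ U, ∀ θ, p x (θ + T) = p x θ
  pq : ∀ x ∈ U, ∀ θ, q x (θ + T) = q x θ
  pA : ∀ x ∈ U, ∀ θ, A x (θ + T) = A x θ
  pB : ∀ x ∈ U, ∀ θ, B x (θ + T) = B x θ
  dt : ∀ x ∈ U, ∀ θ, det2 (p x θ) (q x θ) ≠ 0
  ex : ∀ x ∈ U, ∀ y : Fin 2 → ℝ, y ≠ 0 → ∃ θ, dot (q x θ) y = 0 ∧ 0 < dot (p x θ) y
  un : ∀ x ∈ U, ∀ y : Fin 2 → ℝ, y ≠ 0 → ∀ θ θ', dot (q x θ) y = 0 → 0 < dot (p x θ) y →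
    dot (q x θ') y = 0 → 0 < dot (p x θ') y → ∃ k : ℤ, θ' = θ + k * T

/-- the data coming from a smooth family of periodic solutions -/
def S_GDAT : Prop :=
  ∀ (M : ℝ → ℝ) (u v : ℝ → ℝ → ℝ) (R1 R2 T : ℝ), ContDiff ℝ ∞ M → 0 < R1 → R1 < R2 → 0 < T →
    ContDiff ℝ ∞ (fun z : ℝ × ℝ => u z.1 z.2) → ContDiff ℝ ∞ (fun z : ℝ × ℝ => v z.1 z.2) →
    (∀ R t, HasDerivAt (u R) (v R t) t) → (∀ R t, HasDerivAt (v R) (-u R t - M (v R t)) t) →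
    (∀ R, u R 0 = - M R) → (∀ R, v R 0 = R) →
    (∀ R ∈ Ioo R1 R2, ∀ t, u R (t + T) = u R t ∧ v R (t + T) = v R t) →
    (∀ R ∈ Ioo R1 R2, ∃ c, 0 < c ∧ c < T ∧ v R c < 0 ∧ - u R c - M (v R c) = 0 ∧
        (∀ s, 0 < s → s < T → - u R s - M (v R s) = 0 → s = c)) →
    ∃ (p q : (Fin 2 → ℝ) → ℝ → Fin 2 → ℝ) (A B : (Fin 2 → ℝ) → ℝ → Fin 2 → Fin 2 → ℝ),
      GDat {x : Fin 2 → ℝ | x 0 ∈ Ioo R1 R2} T p q A B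
        (fun x θ => deriv M (v (x 0) (θ + x 1)))
        (fun x θ => deriv (deriv M) (v (x 0) (θ + x 1)))

/-- `θ` is a parameter of the direction `y` at `x` -/
def isT (p q : (Fin 2 → ℝ) → ℝ → Fin 2 → ℝ) (x y : Fin 2 → ℝ) (θ : ℝ) : Prop :=
  dot (q x θ) y = 0 ∧ 0 < dot (p x θ) y

open Classical in
/-- the parameter of the direction `y` at `x` -/
def thet (p q : (Fin 2 → ℝ) → ℝ → Fin 2 → ℝ) (x y : Fin 2 → ℝ) : ℝ :=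
  if h : ∃ θ, isT p q x y θ then Classical.choose h else 0

/-- the Finsler metric -/
def FF (p q : (Fin 2 → ℝ) → ℝ → Fin 2 → ℝ) (x y : Fin 2 → ℝ) : ℝ :=
  dot (p x (thet p q x y)) y

/-- the spray -/
def GG (p q : (Fin 2 → ℝ) → ℝ → Fin 2 → ℝ) (A B : (Fin 2 → ℝ) → ℝ → Fin 2 → Fin 2 → ℝ)
    (x y : Fin 2 → ℝ) : Fin 2 → ℝ :=
  sol2 (p x (thet p q x y)) (q x (thet p q x y))
    ((1 / 2) * quad (A x (thet p q x y)) y) ((1 / 2) * quad (B x (thet p q x y)) y)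

/-- local smooth branch of the parameter (implicit function theorem) -/
def S_LOC : Prop :=
  ∀ (U : Set (Fin 2 → ℝ)) (T : ℝ) (p q : (Fin 2 → ℝ) → ℝ → Fin 2 → ℝ)
    (A B : (Fin 2 → ℝ) → ℝ → Fin 2 → Fin 2 → ℝ) (m1 m2 : (Fin 2 → ℝ) → ℝ → ℝ),
    GDat U T p q A B m1 m2 → ∀ x ∈ U, ∀ y : Fin 2 → ℝ, y ≠ 0 → ∀ θ, isT p q x y θ →
    ∃ Θ : (Fin 2 → ℝ) × (Fin 2 → ℝ) → ℝ, ContDiffAt ℝ ∞ Θ (x, y) ∧ Θ (x, y) = θ ∧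
      ∀ᶠ z in 𝓝 (x, y), isT p q z.1 z.2 (Θ z)

/-- `F` and its derivatives -/
def S_GF : Prop :=
  ∀ (U : Set (Fin 2 → ℝ)) (T : ℝ) (p q : (Fin 2 → ℝ) → ℝ → Fin 2 → ℝ)
    (A B : (Fin 2 → ℝ) → ℝ → Fin 2 → Fin 2 → ℝ) (m1 m2 : (Fin 2 → ℝ) → ℝ → ℝ),
    GDat U T p q A B m1 m2 →
    ContDiffOn ℝ ∞ (fun z : (Fin 2 → ℝ) × (Fin 2 → ℝ) => FF p q z.1 z.2) (U ×ˢ {y | y ≠ 0}) ∧
    ∀ x ∈ U, ∀ y : Fin 2 → ℝ, y ≠ 0 → ∀ θ, isT p q x y θ →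
      FF p q x y = dot (p x θ) y ∧
      GG p q A B x y = sol2 (p x θ) (q x θ) ((1 / 2) * quad (A x θ) y) ((1 / 2) * quad (B x θ) y) ∧
      (∀ i : Fin 2, fderiv ℝ (fun u => FF p q x u ^ 2) y (Pi.single i (1 : ℝ) : Fin 2 → ℝ) =
        2 * dot (p x θ) y * p x θ i) ∧
      (∀ k : Fin 2, fderiv ℝ (fun z => FF p q z y ^ 2) x (Pi.single k (1 : ℝ) : Fin 2 → ℝ) =
        2 * dot (p x θ) y * dot (A x θ k) y) ∧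
      (∀ i j : Fin 2, fderiv ℝ (fun w => fderiv ℝ (fun u => FF p q x u ^ 2) w
              (Pi.single j (1 : ℝ) : Fin 2 → ℝ)) y (Pi.single i (1 : ℝ) : Fin 2 → ℝ) =
        2 * (p x θ i * p x θ j + q x θ i * q x θ j)) ∧
      (∀ l k : Fin 2, fderiv ℝ (fun z => fderiv ℝ (fun u => FF p q z u ^ 2) y
                (Pi.single l (1 : ℝ) : Fin 2 → ℝ)) x (Pi.single k (1 : ℝ) : Fin 2 → ℝ) =
        2 * (dot (A x θ k) y * p x θ l + dot (p x θ) y * A x θ l k + q x θ l * dot (B x θ k) y))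

/-- the `y`-derivatives of the spray at a fixed point `x` -/
def S_GY : Prop :=
  ∀ (p q : ℝ → Fin 2 → ℝ) (A B : ℝ → Fin 2 → Fin 2 → ℝ) (m1 m2 : ℝ → ℝ)
    (V : Set (Fin 2 → ℝ)) (Θ : (Fin 2 → ℝ) → ℝ) (G : (Fin 2 → ℝ) → Fin 2 → ℝ), IsOpen V →
    ContDiff ℝ ∞ p → ContDiff ℝ ∞ q → ContDiff ℝ ∞ A → ContDiff ℝ ∞ B →
    (∀ θ i, HasDerivAt (fun θ => p θ i) (q θ i) θ) →
    (∀ θ i, HasDerivAt (fun θ => q θ i) (- p θ i - m1 θ * q θ i) θ) →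
    (∀ θ i j, HasDerivAt (fun θ => A θ i j) (B θ i j) θ) →
    (∀ θ i j, HasDerivAt (fun θ => B θ i j)
      (- A θ i j - m1 θ * B θ i j - m2 θ * q θ i * q θ j) θ) →
    (∀ θ i j, A θ i j = A θ j i) → (∀ θ i j, B θ i j = B θ j i) →
    (∀ θ, det2 (p θ) (q θ) ≠ 0) → ContDiffOn ℝ ∞ Θ V →
    (∀ y ∈ V, dot (q (Θ y)) y = 0) → (∀ y ∈ V, 0 < dot (p (Θ y)) y) →
    (∀ y ∈ V, G y = sol2 (p (Θ y)) (q (Θ y)) ((1 / 2) * quad (A (Θ y)) y)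
      ((1 / 2) * quad (B (Θ y)) y)) →
    ∀ y ∈ V, ∀ j k l : Fin 2, ∀ D3 : Fin 2 → ℝ,
      (∀ i, D3 i = fderiv ℝ (fun w₂ => fderiv ℝ (fun w₁ => fderiv ℝ (fun u => G u i) w₁
                (Pi.single l (1 : ℝ) : Fin 2 → ℝ)) w₂ (Pi.single k (1 : ℝ) : Fin 2 → ℝ)) y
              (Pi.single j (1 : ℝ) : Fin 2 → ℝ)) →
      dot (p (Θ y)) D3 = 0 ∧
      dot (q (Θ y)) D3 = - m2 (Θ y) * q (Θ y) j * q (Θ y) k * q (Θ y) l / dot (p (Θ y)) y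

/-- the statement to be refuted (positive form of the frozen negation) -/
def UNI : Prop :=
    ¬ (∀ (n : ℕ) (U : Set (Fin n → ℝ)) (F : (Fin n → ℝ) → (Fin n → ℝ) → ℝ)
      (G : (Fin n → ℝ) → (Fin n → ℝ) → (Fin n → ℝ)),
      IsOpen U →
      ContDiffOn ℝ ((⊤ : ℕ∞) : WithTop ℕ∞)
        (fun p : (Fin n → ℝ) × (Fin n → ℝ) => F p.1 p.2) (U ×ˢ {y | y ≠ 0}) →
      (∀ x ∈ U, ∀ y : Fin n → ℝ, y ≠ 0 → 0 < F x y) →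
      (∀ x ∈ U, ∀ y : Fin n → ℝ, ∀ t : ℝ, 0 < t → F x (t • y) = t * F x y) →
      (∀ x ∈ U, ∀ y : Fin n → ℝ, y ≠ 0 → ∀ v : Fin n → ℝ, v ≠ 0 →
        0 < ∑ i : Fin n, ∑ j : Fin n,
          (1 / 2 : ℝ) * fderiv ℝ (fun w => fderiv ℝ (fun u => F x u ^ 2) w
              (Pi.single j (1 : ℝ) : Fin n → ℝ)) y (Pi.single i (1 : ℝ) : Fin n → ℝ)
            * v i * v j) →
      (∀ x ∈ U, ∀ y : Fin n → ℝ, y ≠ 0 → ∀ l : Fin n,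
        ∑ i : Fin n,
          (1 / 2 : ℝ) * fderiv ℝ (fun w => fderiv ℝ (fun u => F x u ^ 2) w
              (Pi.single i (1 : ℝ) : Fin n → ℝ)) y (Pi.single l (1 : ℝ) : Fin n → ℝ)
            * G x y i
        = (1 / 4 : ℝ) * ((∑ k : Fin n,
              fderiv ℝ (fun z => fderiv ℝ (fun u => F z u ^ 2) y
                (Pi.single l (1 : ℝ) : Fin n → ℝ)) x (Pi.single k (1 : ℝ) : Fin n → ℝ) * y k)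
            - fderiv ℝ (fun z => F z y ^ 2) x (Pi.single l (1 : ℝ) : Fin n → ℝ))) →
      (∀ x ∈ U, ∀ y : Fin n → ℝ, y ≠ 0 → ∀ j k l : Fin n,
        ∑ i : Fin n,
          ((1 / 2 : ℝ) * fderiv ℝ (fun u => F x u ^ 2) y (Pi.single i (1 : ℝ) : Fin n → ℝ))
          * fderiv ℝ (fun w₂ => fderiv ℝ (fun w₁ => fderiv ℝ (fun u => G x u i) w₁
                (Pi.single l (1 : ℝ) : Fin n → ℝ)) w₂ (Pi.single k (1 : ℝ) : Fin n → ℝ)) y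
              (Pi.single j (1 : ℝ) : Fin n → ℝ) = 0) →
      ∀ x ∈ U, ∀ y : Fin n → ℝ, y ≠ 0 → ∀ i j k l : Fin n,
        fderiv ℝ (fun w₂ => fderiv ℝ (fun w₁ => fderiv ℝ (fun u => G x u i) w₁
              (Pi.single l (1 : ℝ) : Fin n → ℝ)) w₂ (Pi.single k (1 : ℝ) : Fin n → ℝ)) y
            (Pi.single j (1 : ℝ) : Fin n → ℝ) = 0)

/-- geometric conclusion -/
def S_GEO : Prop :=
  ∀ (U : Set (Fin 2 → ℝ)) (T : ℝ) (p q : (Fin 2 → ℝ) → ℝ → Fin 2 → ℝ)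
    (A B : (Fin 2 → ℝ) → ℝ → Fin 2 → Fin 2 → ℝ) (m1 m2 : (Fin 2 → ℝ) → ℝ → ℝ),
    GDat U T p q A B m1 m2 → (∃ x ∈ U, ∃ θ, m2 x θ ≠ 0) → UNI

end Pool.Agent.W648.UN
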